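import Pool.Agent.W312.TP.Stm

/-!
Project TP (helper312), tasks TP-PCORE and PEXP: the core and the expansion are computable in
polynomial time.
-/

set_option autoImplicit false

namespace Pool.Agent.W349.TP

open Pool.Agent.NPC Pool.Agent.W312.TP

section
variable {α β γ : Type} [TEnc α] [TEnc β] [TEnc γ]

lemma flatMap_const (L : List β) {F : α → β → List γ} (h : ∀ b, NPC.Poly (fun a => F a b)) :
    NPC.Poly (fun a => L.flatMap (F a)) := by
  induction L with
  | nil => exact NPC.Poly.const []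
  | cons b L ih =>
    exact (NPC.Poly.append (h b) ih).congr fun a => (List.flatMap_cons).symm

lemma map_const (L : List β) {F : α → β → γ} (h : ∀ b, NPC.Poly (fun a => F a b)) :
    NPC.Poly (fun a => L.map (F a)) := by
  induction L with
  | nil => exact NPC.Poly.const []
  | cons b L ih =>
    exact (NPC.Poly.cons (h b) ih).congr fun a => (List.map_cons).symm

lemma p_el (t : ℕ) {e : α → ℕ} (he : NPC.Poly e) : NPC.Poly (fun a => el t (e a)) :=
  NPC.Poly.add (NPC.Poly.const (t + 1)) he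

lemma p_lastEnd {x : α → End} {n : α → ℕ} (hx : NPC.Poly x) (hn : NPC.Poly n) (m : ℕ) :
    NPC.Poly (fun a => lastEnd (x a) (n a) m) := by
  by_cases h : m = 0
  · exact hx.congr fun a => by unfold lastEnd; rw [if_pos h]
  · exact (NPC.Poly.pair (NPC.Poly.sub (NPC.Poly.add hn (NPC.Poly.const m)) (NPC.Poly.const 1))
      (NPC.Poly.const true)).congr fun a => by unfold lastEnd; rw [if_neg h]

lemma p_chain {ν n : α → ℕ} {x : α → End} (hν : NPC.Poly ν) (hx : NPC.Poly x)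
    (hn : NPC.Poly n) (m : ℕ) : NPC.Poly (fun a => chain (ν a) (x a) (n a) m) :=
  map_const (List.range m) fun j => NPC.Poly.pair hν (NPC.Poly.pair (p_lastEnd hx hn j)
    (NPC.Poly.pair (NPC.Poly.add hn (NPC.Poly.const j)) (NPC.Poly.const false)))

lemma p_opE {A : α → List ℕ} {n : α → ℕ} (hA : NPC.Poly A) (hn : NPC.Poly n) (m : ℕ) :
    NPC.Poly (fun a => opE (A a) (n a) m) := by
  refine flatMap_const (List.range m) fun j => ?_
  refine NPC.Poly.map (F := fun a x => (x, n a + j)) (NPC.Poly.append hA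
    (map_const (List.range j) fun i => NPC.Poly.add hn (NPC.Poly.const i))) ?_
  exact NPC.Poly.pair (NPC.Poly.snd NPC.Poly.id)
    (NPC.Poly.add (hn.comp (NPC.Poly.fst NPC.Poly.id)) (NPC.Poly.const j))

lemma p_nC (t : ℕ) {p : α → ℕ} (hp : UPoly p) : UPoly (fun a => nC t (p a)) :=
  UPoly.add (UPoly.const (t + 1)) (UPoly.mul (UPoly.const 2) hp)

lemma p_hBase (t : ℕ) {p i : α → ℕ} (hp : UPoly p) (hi : NPC.Poly i) :
    NPC.Poly (fun a => hBase t (p a) (i a)) :=
  NPC.Poly.add (p_nC t hp).toPoly (NPC.Poly.mul (NPC.Poly.const _) hi)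

lemma p_aBase (t : ℕ) {p i : α → ℕ} (hp : UPoly p) (hi : NPC.Poly i) :
    NPC.Poly (fun a => aBase t (p a) (i a)) :=
  NPC.Poly.add (NPC.Poly.add (p_nC t hp).toPoly (NPC.Poly.mul (NPC.Poly.const _) hp.toPoly))
    (NPC.Poly.mul (NPC.Poly.const _) hi)

lemma p_clique {n : α → ℕ} (hn : UPoly n) : NPC.Poly (fun a => cliqueE (n a)) := by
  have h1 : NPC.Poly (fun q : α × ℕ => List.range (min q.2 (n q.1))) :=
    UPoly.range (UPoly.of_le (NPC.Poly.min (NPC.Poly.snd NPC.Poly.id)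
      (hn.toPoly.comp (NPC.Poly.fst NPC.Poly.id))) (hn.comp (NPC.Poly.fst NPC.Poly.id))
      fun q => min_le_right _ _)
  have h2 : NPC.Poly (fun q : α × ℕ => (List.range (min q.2 (n q.1))).map fun i => (i, q.2)) :=
    NPC.Poly.map (F := fun (q : α × ℕ) (i : ℕ) => (i, q.2)) h1
      (NPC.Poly.pair (NPC.Poly.snd NPC.Poly.id) (NPC.Poly.snd (NPC.Poly.fst NPC.Poly.id)))
  refine (NPC.Poly.flatMap (l := fun a => List.range (n a))
    (F := fun a j => (List.range (min j (n a))).map fun i => (i, j)) hn.range h2).congr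
    fun a => ?_
  unfold cliqueE
  refine List.flatMap_congr fun j hj => ?_
  rw [min_eq_left (List.mem_range.1 hj).le]

end

theorem proof_PEXP : PEXP := by
  have hL : NPC.Poly (fun s : St => s.2.2.2) :=
    NPC.Poly.snd (NPC.Poly.snd (NPC.Poly.snd NPC.Poly.id))
  have hn : NPC.Poly (fun s : St => s.1) := NPC.Poly.fst NPC.Poly.id
  have hN : NPC.Poly (fun s : St => s.2.1) := NPC.Poly.fst (NPC.Poly.snd NPC.Poly.id)
  have hE : NPC.Poly (fun s : St => s.2.2.1) :=
    NPC.Poly.fst (NPC.Poly.snd (NPC.Poly.snd NPC.Poly.id))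
  have hq : NPC.Poly (fun z : St × (Slot × ℕ) => z.2.1) := NPC.Poly.fst (NPC.Poly.snd NPC.Poly.id)
  have hi : NPC.Poly (fun z : St × (Slot × ℕ) => z.2.2) := NPC.Poly.snd (NPC.Poly.snd NPC.Poly.id)
  have hz : NPC.Poly (fun z : St × (Slot × ℕ) => z.1) := NPC.Poly.fst NPC.Poly.id
  have hni : NPC.Poly (fun z : St × (Slot × ℕ) => z.1.1 + z.2.2) :=
    NPC.Poly.add (NPC.Poly.fst hz) hi
  have hNi : NPC.Poly (fun z : St × (Slot × ℕ) => z.1.2.1 + z.2.2) :=
    NPC.Poly.add (NPC.Poly.fst (NPC.Poly.snd hz)) hi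
  have hx : NPC.Poly (fun z : St × (Slot × ℕ) => z.2.1.2.1) := NPC.Poly.fst (NPC.Poly.snd hq)
  have hy : NPC.Poly (fun z : St × (Slot × ℕ) => z.2.1.2.2) := NPC.Poly.snd (NPC.Poly.snd hq)
  have h1 : NPC.Poly (fun s : St => newEdges s.1 s.2.2.2) :=
    NPC.Poly.flatMap (l := fun s : St => s.2.2.2.zipIdx)
      (F := fun (s : St) (q : Slot × ℕ) => [(q.1.2.1.1, s.1 + q.2), (q.1.2.2.1, s.1 + q.2)])
      (NPC.Poly.zipIdx hL)
      (NPC.Poly.cons (NPC.Poly.pair (NPC.Poly.fst hx) hni)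
        (NPC.Poly.cons (NPC.Poly.pair (NPC.Poly.fst hy) hni) (NPC.Poly.const [])))
  have h2 : NPC.Poly (fun s : St => newSlots s.1 s.2.1 s.2.2.2) :=
    NPC.Poly.flatMap (l := fun s : St => s.2.2.2.zipIdx)
      (F := fun (s : St) (q : Slot × ℕ) =>
        [(s.2.1 + q.2, q.1.2.1, (s.1 + q.2, false)), (s.2.1 + q.2, (s.1 + q.2, true), q.1.2.2)])
      (NPC.Poly.zipIdx hL)
      (NPC.Poly.cons (NPC.Poly.pair hNi (NPC.Poly.pair hx
        (NPC.Poly.pair hni (NPC.Poly.const false))))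
        (NPC.Poly.cons (NPC.Poly.pair hNi (NPC.Poly.pair
          (NPC.Poly.pair hni (NPC.Poly.const true)) hy)) (NPC.Poly.const [])))
  exact NPC.Poly.pair (NPC.Poly.add hn (NPC.Poly.length hL))
    (NPC.Poly.pair (NPC.Poly.add hN (NPC.Poly.length hL))
      (NPC.Poly.pair (NPC.Poly.append hE h1) h2))

theorem proof_PCORE : PCORE := by
  intro α _ t p gs hp hgs
  have hE1 : NPC.Poly (fun x => cliqueE (nC t (p x))) := p_clique (p_nC t hp)
  -- pairs
  have hpf : UPoly (fun q : α × ℕ => p q.1) := hp.comp (NPC.Poly.fst NPC.Poly.id)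
  have hi : NPC.Poly (fun q : α × ℕ => q.2) := NPC.Poly.snd NPC.Poly.id
  have h2i : NPC.Poly (fun q : α × ℕ => 2 * q.2) := NPC.Poly.mul (NPC.Poly.const 2) hi
  have h2i1 : NPC.Poly (fun q : α × ℕ => 2 * q.2 + 1) := NPC.Poly.add h2i (NPC.Poly.const 1)
  have h1i : NPC.Poly (fun q : α × ℕ => 1 + q.2) := NPC.Poly.add (NPC.Poly.const 1) hi
  have hb : NPC.Poly (fun q : α × ℕ => hBase t (p q.1) q.2) := p_hBase t hpf hi
  have hE2 : NPC.Poly (fun x => (List.range (p x)).flatMap fun i =>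
      opE [el t (2 * i), el t (2 * i + 1)] (hBase t (p x) i) (rr t - 2)) :=
    NPC.Poly.flatMap (l := fun x => List.range (p x))
      (F := fun x i => opE [el t (2 * i), el t (2 * i + 1)] (hBase t (p x) i) (rr t - 2))
      hp.range (p_opE (NPC.Poly.cons (p_el t h2i) (NPC.Poly.cons (p_el t h2i1)
        (NPC.Poly.const []))) hb _)
  have hS2 : NPC.Poly (fun x => (List.range (p x)).flatMap fun i => pairSlots t (p x) i) := by
    refine NPC.Poly.flatMap (l := fun x => List.range (p x))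
      (F := fun x i => pairSlots t (p x) i) hp.range ?_
    have hx : NPC.Poly (fun q : α × ℕ => ((el t (2 * q.2), false) : End)) :=
      NPC.Poly.pair (p_el t h2i) (NPC.Poly.const false)
    exact NPC.Poly.append (p_chain h1i hx hb _)
      (NPC.Poly.cons (NPC.Poly.pair h1i (NPC.Poly.pair (p_lastEnd hx hb _)
        (NPC.Poly.pair (p_el t h2i1) (NPC.Poly.const false)))) (NPC.Poly.const []))
  -- gadgets
  have hpg : UPoly (fun q : α × (Gad × ℕ) => p q.1) := hp.comp (NPC.Poly.fst NPC.Poly.id)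
  have hg : NPC.Poly (fun q : α × (Gad × ℕ) => q.2.1) := NPC.Poly.fst (NPC.Poly.snd NPC.Poly.id)
  have hj : NPC.Poly (fun q : α × (Gad × ℕ) => q.2.2) := NPC.Poly.snd (NPC.Poly.snd NPC.Poly.id)
  have hab : NPC.Poly (fun q : α × (Gad × ℕ) => aBase t (p q.1) q.2.2) := p_aBase t hpg hj
  have he1 : NPC.Poly (fun q : α × (Gad × ℕ) => el t q.2.1.2.1) :=
    p_el t (NPC.Poly.fst (NPC.Poly.snd hg))
  have he2 : NPC.Poly (fun q : α × (Gad × ℕ) => el t q.2.1.2.2.1) :=
    p_el t (NPC.Poly.fst (NPC.Poly.snd (NPC.Poly.snd hg)))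
  have he3 : NPC.Poly (fun q : α × (Gad × ℕ) => el t q.2.1.2.2.2) :=
    p_el t (NPC.Poly.snd (NPC.Poly.snd (NPC.Poly.snd hg)))
  have hE3 : NPC.Poly (fun x => (gs x).zipIdx.flatMap fun g =>
      opE [el t g.1.2.1, el t g.1.2.2.1, el t g.1.2.2.2] (aBase t (p x) g.2) (kk t)) :=
    NPC.Poly.flatMap (l := fun x => (gs x).zipIdx)
      (F := fun x g => opE [el t g.1.2.1, el t g.1.2.2.1, el t g.1.2.2.2]
        (aBase t (p x) g.2) (kk t))
      (NPC.Poly.zipIdx hgs) (p_opE (NPC.Poly.cons he1 (NPC.Poly.cons he2 (NPC.Poly.cons he3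
        (NPC.Poly.const [])))) hab _)
  have hS3 : NPC.Poly (fun x => (gs x).zipIdx.flatMap fun g => gadSlots t (p x) g.1 g.2) := by
    refine NPC.Poly.flatMap (l := fun x => (gs x).zipIdx)
      (F := fun x g => gadSlots t (p x) g.1 g.2) (NPC.Poly.zipIdx hgs) ?_
    have hν : NPC.Poly (fun q : α × (Gad × ℕ) => 1 + p q.1 + q.2.2) :=
      NPC.Poly.add (NPC.Poly.add (NPC.Poly.const 1) hpg.toPoly) hj
    have hc : NPC.Poly (fun q : α × (Gad × ℕ) =>
        chain (1 + p q.1 + q.2.2) (el t q.2.1.2.1, true) (aBase t (p q.1) q.2.2) (kk t)) :=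
      p_chain hν (NPC.Poly.pair he1 (NPC.Poly.const true)) hab _
    exact (NPC.Poly.ite (p := fun q : α × (Gad × ℕ) => q.2.1.1 = true)
      (NPC.Poly.decide_bool (NPC.Poly.fst hg)) (NPC.Poly.tail hc) hc).congr fun q => by
        unfold gadSlots
        rw [List.drop_one]
  have hlen : NPC.Poly (fun x => (gs x).length) := NPC.Poly.length hgs
  exact NPC.Poly.pair (p_aBase t hp hlen)
    (NPC.Poly.pair (NPC.Poly.add (NPC.Poly.add (NPC.Poly.const 1) hp.toPoly) hlen)
      (NPC.Poly.pair (NPC.Poly.append (NPC.Poly.append hE1 hE2) hE3)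
        (NPC.Poly.append (NPC.Poly.append (NPC.Poly.const _) hS2) hS3)))

end Pool.Agent.W349.TP
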