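import Pool.Agent.W476.TP.Stm

/-!
# Part RAD of project TP
(helper349)
-/

set_option autoImplicit false

open MvPolynomial Pool.Agent.W476.TP

namespace W349.TP

theorem rad_lift {L σ M : Type} [Field L] [AddCommMonoid M] (p : ℕ) (w : σ → M) (d : M)
    (b : (σ → L) → L) (s s' : ℕ) (hs : s ≤ s')
    (h : ∃ G : MvPolynomial σ L, IsWeightedHomogeneous w G (p ^ s • d) ∧
      ∀ z, b z ^ p ^ s = eval z G) :
    ∃ G : MvPolynomial σ L, IsWeightedHomogeneous w G (p ^ s' • d) ∧
      ∀ z, b z ^ p ^ s' = eval z G := by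
  obtain ⟨G, hG, hb⟩ := h
  obtain ⟨t, rfl⟩ := Nat.exists_eq_add_of_le hs
  refine ⟨G ^ p ^ t, ?_, fun z => ?_⟩
  · have h1 := hG.pow (p ^ t)
    rw [smul_smul, ← pow_add, add_comm t s] at h1
    exact h1
  · rw [map_pow, ← hb, ← pow_mul, pow_add]

theorem rad_common {L σ M ι : Type} [Field L] [AddCommMonoid M] [Fintype ι] (p : ℕ) (w : σ → M)
    (d : M) (u : ι → (σ → L) → L) (h : ∀ i, Rad p w d (u i)) :
    ∃ (s : ℕ) (G : ι → MvPolynomial σ L), (∀ i, IsWeightedHomogeneous w (G i) (p ^ s • d)) ∧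
      ∀ i z, u i z ^ p ^ s = eval z (G i) := by
  choose s hs using h
  set t := Finset.univ.sup s with ht
  have h1 : ∀ i, ∃ G : MvPolynomial σ L, IsWeightedHomogeneous w G (p ^ t • d) ∧
      ∀ z, u i z ^ p ^ t = eval z G := fun i =>
    rad_lift p w d (u i) (s i) t (Finset.le_sup (Finset.mem_univ i)) (hs i)
  choose G hG hu using h1
  exact ⟨t, G, hG, hu⟩

theorem t_RAD : S_RAD := by
  intro p _ L _ _ σ _ M _ w d
  refine ⟨?_, ?_, ?_⟩
  · intro γ α hα
    refine ⟨0, monomial α γ, ?_, fun z => ?_⟩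
    · rw [pow_zero, one_smul]
      exact isWeightedHomogeneous_monomial w α γ hα
    · rw [pow_zero, pow_one, eval_monomial, Finsupp.prod_fintype _ _ (fun i => pow_zero _)]
  · intro ι _ u h
    obtain ⟨s, G, hG, hu⟩ := rad_common p w d u h
    refine ⟨s, ∑ i, G i, IsWeightedHomogeneous.sum _ _ _ fun i _ => hG i, fun z => ?_⟩
    rw [sum_pow_char_pow, map_sum]
    exact Finset.sum_congr rfl fun i _ => hu i z
  · intro ι _ k u v α γ h hv hα
    obtain ⟨s, G, hG, hu⟩ := rad_common p w d u h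
    refine ⟨k + s, C (γ ^ p ^ (k + s)) * ∏ i, G i ^ α i, ?_, fun z => ?_⟩
    · have h1 := IsWeightedHomogeneous.prod Finset.univ (fun i => G i ^ α i)
        (fun i => α i • (p ^ s • d)) (fun i _ => (hG i).pow (α i))
      have h2 := (isWeightedHomogeneous_C w (γ ^ p ^ (k + s))).mul h1
      rw [← Finset.sum_smul, hα, zero_add, smul_smul, ← pow_add] at h2
      exact h2
    · rw [map_mul, eval_C, map_prod, mul_pow, ← Finset.prod_pow]
      congr 1
      refine Finset.prod_congr rfl fun i _ => ?_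
      rw [map_pow, ← hu i z, ← hv i z, ← pow_mul, ← pow_mul, ← pow_mul, pow_add]
      congr 1
      ring

end W349.TP
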